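import Pool.Agent.W900.IM.Orc

/-!
# Random blocks do not look like messages
-/

set_option autoImplicit false

namespace Pool.Agent.W900.IM

open Filter MeasureTheory Pool.Agent.NPC Pool.Agent.H620R2.Gauge
open Pool.Agent.W900.PM (par_flip flp map_flp)
open Pool.Agent.H628R3.RO (randomOracle)
open scoped ENNReal

variable (u : ℕ → Option (SAlg × ℕ)) (i n : ℕ)

theorem measurable_syn (j : ℕ) : Measurable (fun O : Oracle => syn u O i n j) := by
  unfold syn
  generalize 2 ^ (3 * n + 1) = N
  induction N with
  | zero => exact measurable_const
  | succ N ih =>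
    have h1 : (fun O : Oracle => PM.par (N + 1)
        (fun p => O (pos u i n p) && (str p).getD j false)) = fun O : Oracle =>
        xor (PM.par N (fun p => O (pos u i n p) && (str p).getD j false))
          (O (pos u i n N) && (str N).getD j false) := by
      funext O
      rw [PM.par_succ]
    rw [h1]
    have h2 : Measurable (fun O : Oracle => O (pos u i n N)) := measurable_pi_apply _
    have h3 : Measurable (fun q : Bool × Bool => xor q.1 (q.2 && (str N).getD j false)) :=
      measurable_of_countable _
    exact h3.comp (ih.prodMk h2)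

/-- the block has the digits `v` -/
def EV (v : Fin (2 * n) → Bool) : Set Oracle := {O | ∀ j : Fin (2 * n), syn u O i n j = v j}

theorem measurableSet_EV (v : Fin (2 * n) → Bool) : MeasurableSet (EV u i n v) := by
  have h1 : EV u i n v = ⋂ j : Fin (2 * n), (fun O : Oracle => syn u O i n j) ⁻¹' {v j} := by
    ext O
    simp [EV]
  rw [h1]
  exact MeasurableSet.iInter fun j => measurable_syn u i n j (measurableSet_singleton _)

theorem measure_EV (v : Fin (2 * n) → Bool) :
    randomOracle (EV u i n v) = randomOracle (EV u i n (fun _ => false)) := by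
  classical
  set p := idx (List.ofFn v) with hp
  have hlen : (str p).length = 2 * n := by rw [hp, str_idx, List.length_ofFn]
  have hplt : p < 2 ^ (3 * n + 1) := by
    have h := idx_lt (List.ofFn v)
    rw [List.length_ofFn] at h
    have h2 : 2 ^ (2 * n + 1) ≤ 2 ^ (3 * n + 1) := Nat.pow_le_pow_right (by norm_num) (by omega)
    omega
  have hpre : flp {pos u i n p} ⁻¹' (EV u i n v) = EV u i n (fun _ => false) := by
    ext O
    have h1 : ∀ j : Fin (2 * n), syn u (flp {pos u i n p} O) i n j =
        xor (syn u O i n j) (v j) := by
      intro j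
      have h2 : (str p).getD j false = v j := by
        rw [hp, str_idx, List.getD_eq_getElem _ _ (by rw [List.length_ofFn]; exact j.2),
          List.getElem_ofFn]
      rw [← h2]
      unfold syn
      apply par_flip hplt
      · intro q _ hq
        have h3 : pos u i n q ∉ ({pos u i n p} : Finset (List Bool)) := by
          rw [Finset.mem_singleton]
          exact fun h => hq (pos_inj h).2.2
        unfold flp
        rw [if_neg h3]
      · unfold flp
        rw [if_pos (Finset.mem_singleton_self _)]
        cases O (pos u i n p) <;> cases (str p).getD j false <;> rfl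
    rw [Set.mem_preimage]
    unfold EV
    rw [Set.mem_ofPred_eq, Set.mem_ofPred_eq]
    refine forall_congr' fun j => ?_
    rw [h1 j]
    cases syn u O i n j <;> cases v j <;> simp
  have hm : Measurable (flp {pos u i n p}) := by
    rw [measurable_pi_iff]
    intro z
    unfold flp
    by_cases hz : z ∈ ({pos u i n p} : Finset (List Bool))
    · simp only [hz, if_true]
      exact (measurable_of_countable (fun b : Bool => !b)).comp (measurable_pi_apply z)
    · simp only [hz, if_false]
      exact measurable_pi_apply z
  rw [← hpre, ← Measure.map_apply hm (measurableSet_EV u i n v), map_flp]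

theorem measure_EV_le : randomOracle (EV u i n (fun _ => false)) ≤ (1 / 2) ^ n := by
  classical
  have h1 : ∑ v : Fin (2 * n) → Bool, randomOracle (EV u i n v) ≤ 1 := by
    rw [← measure_biUnion_finset]
    · exact prob_le_one
    · intro v _ w _ hvw
      rw [Function.onFun, Set.disjoint_left]
      intro O h2 h3
      apply hvw
      funext j
      rw [← h2 j, ← h3 j]
    · exact fun v _ => measurableSet_EV u i n v
  simp only [measure_EV u i n, Finset.sum_const, Finset.card_univ, Fintype.card_fun,
    Fintype.card_bool, Fintype.card_fin, nsmul_eq_mul] at h1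
  have h2 : randomOracle (EV u i n (fun _ => false)) ≤ 1 / (2 : ℝ≥0∞) ^ (2 * n) := by
    rw [ENNReal.le_div_iff_mul_le (Or.inl (by positivity)) (Or.inl (by finiteness)), mul_comm]
    exact_mod_cast h1
  refine h2.trans ?_
  rw [one_div, one_div, ← ENNReal.inv_pow]
  apply ENNReal.inv_le_inv.2
  exact pow_le_pow_right₀ (by norm_num) (by omega)

/-- Almost surely no block with a large number looks like a message. -/
theorem ae_blocks (u : ℕ → Option (SAlg × ℕ)) : ∀ᵐ O ∂randomOracle, ∀ i, ∃ n₀, ∀ n ≥ n₀,
    ¬ ∀ j < 2 * n, syn u O i n j = false := by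
  rw [ae_all_iff]
  intro i
  have h1 : ∑' n, randomOracle (EV u i n (fun _ => false)) ≠ ∞ := by
    have h2 : ∑' n, randomOracle (EV u i n (fun _ => false)) ≤ ∑' n : ℕ, (1 / 2 : ℝ≥0∞) ^ n :=
      ENNReal.tsum_le_tsum fun n => measure_EV_le u i n
    refine ne_top_of_le_ne_top ?_ h2
    rw [ENNReal.tsum_geometric]
    simp
  filter_upwards [ae_eventually_notMem h1] with O hO
  obtain ⟨n₀, hn₀⟩ := eventually_atTop.1 hO
  exact ⟨n₀, fun n hn h => hn₀ n hn fun j => h j j.2⟩

end Pool.Agent.W900.IM
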