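import Pool.Agent.W900.IM.Bi
import Pool.Agent.W900.IM.Prob
import Pool.Agent.W900.CH.EFar
import Pool.Agent.H622R2.Exp.B

/-!
# Immunity and changed strings
-/

set_option autoImplicit false

namespace Pool.Agent.W900.IM

open Filter MeasureTheory Pool.Agent.NPC Pool.Agent.H620R2.Gauge
open Pool.Agent.W911.KM (NullP NullQP IsE km_ae Approximates)
open Pool.Agent.W911.AL (IsSigma)
open Pool.Agent.W900.CH (Close ae_far_E)
open Pool.Agent.W900.RB (close_mono)
open Pool.Agent.W900.PM (ae_finite finite_of_close ae_ph small_id fair_eq)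
open Pool.Agent.W900.PE (espace_task exists_tasks)
open Pool.Agent.H622R2.Exp (InSpace InTime InNTime Lin hit2 good_Lin)
open Pool.Agent.H591R3.PHG (IsSig IsSigPoly)
open Pool.Agent.H628R3.RO (randomOracle)

/-! ## Random oracles -/

theorem isSigma_empty (A : Oracle) : IsSigma A (fun _ => 0) ∅ := by
  refine ⟨fun _ => [], 0, IsFP.of_poly (NPC.Poly.const []), fun x => ?_⟩
  constructor
  · intro h
    exact absurd h (Set.notMem_empty x)
  · intro h
    have h1 : ([] : List Bool) = [true] := h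
    simp at h1

theorem nullQP_join {A : Oracle} {X : Set (Set (List Bool))} (h : NullP A X) :
    NullQP (W911.KM.join A ∅) 0 X := by
  obtain ⟨d, hd, F, hF, hFd⟩ := h
  have h1 : W911.KM.join A ∅ = SP.join A (fun _ => false) := by
    funext q
    rcases q with _ | ⟨b, q⟩
    · rfl
    · cases b
      · rfl
      · simp [W911.KM.join, SP.join]
  have h2 : IsFP (W911.KM.join A ∅) F := by
    rw [h1]
    exact SP.isFP_join _ hF
  exact W911.KM.NullP.nullQP ⟨d, hd, F, h2, hFd⟩ 0

/-- the language splits all infinite sets in `E` -/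
def Splits (A : Oracle) (L : Set (List Bool)) : Prop :=
  ∀ S : Set (List Bool), S.Infinite → IsE A S → (S ∩ L).Infinite ∧ (S \ L).Infinite

theorem ae_splits : ∀ᵐ A ∂randomOracle, ∃ L, IsSigma A (fun _ => 1) L ∧ Splits A L := by
  have h1 := km_ae
  rw [fair_eq] at h1
  filter_upwards [h1] with A hA
  obtain ⟨L, hL, h⟩ := hA 0 0
  refine ⟨L, hL, fun S hS hE => split_of_not_null (fun X hX hN => ?_) hS hE⟩
  exact h ∅ (isSigma_empty A) X hX (nullQP_join hN)

/-! ## The counting function -/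

open Classical in
/-- the number of changes that are allowed from `N` on -/
noncomputable def GG (g : ℕ → ℝ) (N : ℕ) : ℕ :=
  Nat.findGreatest (fun K => ∀ m ≥ N, (K : ℝ) ≤ g m) N

theorem GG_mono (g : ℕ → ℝ) : Monotone (GG g) := by
  classical
  intro N N' h
  exact Nat.findGreatest_mono (fun K hK m hm => hK m (h.trans hm)) h

theorem GG_tendsto {g : ℕ → ℝ} (hg : Tendsto g atTop atTop) : Tendsto (GG g) atTop atTop := by
  classical
  refine tendsto_atTop_atTop.2 fun K => ?_
  obtain ⟨N, hN⟩ := eventually_atTop.1 (hg.eventually_ge_atTop (K : ℝ))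
  refine ⟨max N K, fun n hn => ?_⟩
  exact Nat.le_findGreatest ((le_max_right _ _).trans hn)
    fun m hm => hN m (((le_max_left _ _).trans hn).trans hm)

theorem GG_le {g : ℕ → ℝ} (hg : Tendsto g atTop atTop) : ∀ᶠ N in atTop, (GG g N : ℝ) ≤ g N := by
  classical
  obtain ⟨N₀, hN₀⟩ := eventually_atTop.1 (hg.eventually_ge_atTop (0 : ℝ))
  filter_upwards [eventually_ge_atTop N₀] with N hN
  have h1 : ∀ m ≥ N, (((0 : ℕ) : ℝ)) ≤ g m := fun m hm => by
    rw [Nat.cast_zero]
    exact hN₀ m (hN.trans hm)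
  have h2 := Nat.findGreatest_spec (P := fun K : ℕ => ∀ m ≥ N, (K : ℝ) ≤ g m)
    (Nat.zero_le N) h1
  exact h2 N le_rfl

/-! ## The subsets -/

theorem unbounded_lengths {L : Set (List Bool)} (hL : L.Infinite) (N : ℕ) :
    ∃ x ∈ L, N ≤ x.length := by
  by_contra hc
  push Not at hc
  apply hL
  refine (Set.Finite.subset (Finset.finite_toSet (BC.firsts (2 ^ (N + 1)))) fun x hx => ?_)
  rw [Finset.mem_coe, BC.mem_firsts]
  have h1 := idx_lt x
  have h2 : 2 ^ (x.length + 1) ≤ 2 ^ (N + 1) :=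
    Nat.pow_le_pow_right (by norm_num) (by have := hc x hx; omega)
  omega

theorem infinite_of_lengths {S : Set (List Bool)} (h : ∀ N, ∃ x ∈ S, N ≤ x.length) :
    S.Infinite := by
  intro hfin
  obtain ⟨x, hx, h1⟩ := h (hfin.toFinset.sup List.length + 1)
  have h2 := Finset.le_sup (f := List.length) (hfin.mem_toFinset.2 hx)
  omega

theorem chs_spec {n : ℕ} {P : List Bool → Prop} (h : ∃ x : List Bool, x.length = n ∧ P x) :
    (chs n P).length = n ∧ P (chs n P) := by
  unfold chs
  rw [dif_pos h]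
  exact h.choose_spec

theorem exists_sub {u : ℕ → Option (SAlg × ℕ)} (hu : Function.Surjective u) {G : ℕ → ℕ}
    (hG : Tendsto G atTop atTop) {O A : Oracle}
    (hO : ∀ i, ∃ n₀, ∀ n ≥ n₀, ¬ ∀ j < 2 * n, syn u O i n j = false)
    (hsyn : ∀ i n, used u G A i n → ∀ j < 3 * n, syn u A i n j = ms u A i n j)
    (hsyn' : ∀ i n, ¬ used u G A i n → ∀ j, syn u A i n j = syn u O i n j)
    {L : Set (List Bool)} (hL : L.Infinite) (hLS : InSpace Lin A L) :
    ∃ S ⊆ L, S.Infinite ∧ IsE A S := by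
  obtain ⟨M, q, hq, hM⟩ := hLS
  obtain ⟨c, hc⟩ := espace_task M hq
  obtain ⟨i, hi⟩ := hu (some (M, c))
  have hac : ∀ x : List Bool, ac u A i x.length x ↔ x ∈ L := by
    intro x
    rw [hc A L hM x]
    constructor
    · rintro ⟨M', c', h1, h2⟩
      rw [hi] at h1
      simp only [Option.some.injEq, Prod.mk.injEq] at h1
      obtain ⟨rfl, rfl⟩ := h1
      exact h2
    · intro h
      exact ⟨M, c, hi, h⟩
  obtain ⟨n₀, hn₀⟩ := hO i
  have hused : ∀ n, used u G A i n → (chs n (ac u A i n)).length = n ∧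
      chs n (ac u A i n) ∈ L ∧ (∀ j < 2 * n, syn u A i n j = false) ∧
        ∀ j < n, syn u A i n (2 * n + j) = (chs n (ac u A i n)).getD j false := by
    rintro n ⟨t, ht, ht'⟩
    obtain ⟨h1, h2⟩ := chs_spec ht.2
    refine ⟨h1, ?_, fun j hj => ?_, fun j hj => ?_⟩
    · rw [← hac, h1]
      exact h2
    · rw [hsyn i n ⟨t, ht, ht'⟩ j (by omega)]
      unfold ms
      rw [List.getD_append _ _ _ _ (by rw [List.length_replicate]; exact hj),
        List.getD_eq_getElem _ _ (by rw [List.length_replicate]; exact hj),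
        List.getElem_replicate]
    · rw [hsyn i n ⟨t, ht, ht'⟩ _ (by omega)]
      unfold ms
      rw [List.getD_append_right _ _ _ _ (by rw [List.length_replicate]; omega),
        List.length_replicate, Nat.add_sub_cancel_left]
  refine ⟨SS u A i n₀, ?_, ?_, isE_SS u A i n₀⟩
  · rintro x ⟨h1, h2, h3⟩
    by_cases hx : used u G A i x.length
    · obtain ⟨h4, h5, _, h6⟩ := hused _ hx
      have h7 : x = chs x.length (ac u A i x.length) := by
        apply List.ext_getElem (by rw [h4])
        intro j hj hj'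
        have h8 := (h3 j hj).symm.trans (h6 j hj)
        rwa [List.getD_eq_getElem _ _ hj, List.getD_eq_getElem _ _ hj'] at h8
      rw [h7]
      exact h5
    · exfalso
      apply hn₀ _ h1
      intro j hj
      rw [← hsyn' i _ hx j]
      exact h2 j hj
  · apply infinite_of_lengths
    intro N
    have hel : ∀ N, ∃ n ≥ N, el u A i n := by
      intro N
      obtain ⟨x, hx, hxN⟩ := unbounded_lengths hL N
      exact ⟨x.length, hxN, x, rfl, (hac x).2 hx⟩
    obtain ⟨n, hn, hnu⟩ := used_inf hG hel (max N n₀)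
    obtain ⟨h4, h5, h6, h7⟩ := hused n hnu
    refine ⟨chs n (ac u A i n), ⟨?_, ?_, ?_⟩, ?_⟩
    · rw [h4]
      exact (le_max_right _ _).trans hn
    · rw [h4]
      exact h6
    · rw [h4]
      exact h7
    · rw [h4]
      exact (le_max_left _ _).trans hn

theorem ae_main : ∀ᵐ O ∂randomOracle,
    (∀ g : ℕ → ℝ, ¬ Tendsto g atTop atTop → ∀ A, Close g O A →
      ∃ L, IsSigma A (fun _ => 1) L ∧ Splits A L) ∧
    ∀ g : ℕ → ℝ, Tendsto g atTop atTop → ∃ A, Close g O A ∧
      (∀ L : Set (List Bool), L.Infinite → InSpace Lin A L → ∃ S ⊆ L, S.Infinite ∧ IsE A S) ∧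
      (∃ L, InNTime Lin A L ∧ ¬ IsE A L) ∧
      (∀ k, ∃ L, IsSig A (k + 1) L ∧ ¬ IsSigPoly A k L) ∧ ∃ f, OC.Hard A f := by
  obtain ⟨u, hu⟩ := exists_tasks
  have hlog : ∀ ε : ℝ, 0 < ε → ∀ᶠ n : ℕ in atTop, Real.log (n : ℝ) ≤ (n : ℝ) ^ ε := by
    intro ε hε
    have h1 := ((isLittleO_log_rpow_atTop hε).bound (c := 1) one_pos)
    have h2 := tendsto_natCast_atTop_atTop (R := ℝ) |>.eventually h1
    filter_upwards [h2, eventually_ge_atTop 1] with n h3 h4
    have h5 : (1 : ℝ) ≤ n := by exact_mod_cast h4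
    rw [Real.norm_of_nonneg (Real.log_nonneg h5),
      Real.norm_of_nonneg (Real.rpow_nonneg (by positivity) _), one_mul] at h3
    exact h3
  filter_upwards [ae_finite ae_splits, ae_ph, OC.ae_est, ae_blocks u,
    ae_far_E (g := fun n => Real.log (n : ℝ)) fun ε hε => (hlog ε hε).frequently]
    with O h2 h3 h4 h5 h6
  refine ⟨fun g hg A hA => h2 A (finite_of_close hg hA), fun g hg => ?_⟩
  have hmin : Tendsto (fun n : ℕ => min (g n) (Real.log (n : ℝ))) atTop atTop :=
    tendsto_atTop.2 fun K => by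
      filter_upwards [hg.eventually_ge_atTop K,
        (Real.tendsto_log_atTop.comp tendsto_natCast_atTop_atTop).eventually_ge_atTop K]
        with n h7 h8
      exact le_min h7 h8
  set g₁ : ℕ → ℝ := fun n => min (g n) (Real.log (n : ℝ)) with hg₁
  obtain ⟨A, hA, hs1, hs2⟩ := exists_orc u (GG g₁) O
  have hcl : Close g₁ O A := by
    unfold CH.Close
    filter_upwards [GG_le hmin] with N hN
    refine le_trans ?_ hN
    have h7 : CH.dist O A N ≤ GG g₁ N := dist_orc (GG_mono g₁) (fun z hz => by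
      rw [hA z, if_neg hz]) N
    exact_mod_cast h7
  have hc1 : Close (fun n => Real.log (n : ℝ)) O A := close_mono (fun n => min_le_right _ _) hcl
  have hc2 : Close (fun n => (n : ℝ)) O A := close_mono (fun n => by
    rcases Nat.eq_zero_or_pos n with rfl | hn
    · simp
    · have h7 : (0 : ℝ) < n := by exact_mod_cast hn
      have h8 := Real.log_le_sub_one_of_pos h7
      linarith) hc1
  refine ⟨A, close_mono (fun n => min_le_left _ _) hcl,
    fun L hL hLS => exists_sub hu (GG_tendsto hmin) h5 hs1 hs2 hL hLS,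
    ⟨hit2 A, H622R2.Exp.hit2_ntime good_Lin A, fun h => h6 A hc1 (inTime_of_isE h)⟩, h3 A hc2, OW.ff A,
    OC.hard_of_close (fun ε hε => ?_) h4 hc2⟩
  filter_upwards [small_id ε hε] with n hn
  exact ⟨n, le_refl _, hn⟩

end Pool.Agent.W900.IM
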