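import Pool.Agent.W911.KM.InE
import Pool.Agent.H622R2.Exp.A6
import Pool.Agent.H622R2.Exp.A2
import Pool.Agent.H622R2.Exp.G
import Pool.Agent.H622R2.Exp.Defs

/-!
# The two definitions of `E` agree
-/

set_option autoImplicit false

namespace Pool.Agent.W900.IM

open Pool.Agent.NPC Pool.Agent.H620R2.Gauge
open Pool.Agent.W911.AL (poly_pow2)
open Pool.Agent.W911.KM (IsE)
open Pool.Agent.H622R2.Exp (InTime Lin good_Lin)
open Pool.Agent.H622R2 (poly_pairBits poly_of_polyTime polyTime_of_poly_list)

attribute [local irreducible] unpair

/-- the list without its first `R` elements -/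
def dr (R : ℕ) (a : List Bool) : List Bool :=
  (List.range (a.length - R)).map (fun k => a.getD (R + k) false)

theorem dr_append {R : ℕ} {a b : List Bool} (h : a.length = R) : dr R (a ++ b) = b := by
  unfold dr
  apply List.ext_getElem
  · simp [h]
  · intro k h1 h2
    simp only [List.getElem_map, List.getElem_range]
    rw [List.getD_eq_getElem?_getD, List.getElem?_append_right (by omega)]
    have h3 : R + k - a.length = k := by omega
    rw [h3, List.getElem?_eq_getElem h2]
    rfl

theorem poly_dr {α : Type} [TEnc α] {R : α → ℕ} {a : α → List Bool} (hR : Poly R)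
    (ha : Poly a) : Poly (fun x => dr (R x) (a x)) := by
  unfold dr
  have h1 : UPoly (fun x => (a x).length - R x) :=
    UPoly.of_le (Poly.sub (Poly.length ha) hR) (UPoly.length ha) fun x => Nat.sub_le _ _
  refine NPC.Poly.map (F := fun (x : α) (k : ℕ) => (a x).getD (R x + k) false) h1.range ?_
  exact Poly.getD (ha.comp (Poly.fst Poly.id))
    (Poly.add (hR.comp (Poly.fst Poly.id)) (Poly.snd Poly.id)) (NPC.Poly.const false)

/-- the next action -/
def nD (D : List Bool → List Bool) (c : ℕ) (y : List Bool) : List Bool :=
  if (unpair y).2.length < 2 ^ (c * ((unpair y).1.length + 1)) then [false] else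
    D (pairBits (pairBits (List.replicate (min (2 ^ (c * ((unpair y).1.length + 1)))
      (unpair y).2.length) true) (unpair y).1)
      (dr (2 ^ (c * ((unpair y).1.length + 1))) (unpair y).2))

theorem poly_nD {D : List Bool → List Bool} (hD : PolyTime D) (c : ℕ) : PolyTime (nD D c) := by
  have hD' := poly_of_polyTime hD
  have h1 : Poly (fun y : List Bool => (unpair y).1) := Poly.fst poly_unpair
  have h2 : Poly (fun y : List Bool => (unpair y).2) := Poly.snd poly_unpair
  have hR : Poly (fun y : List Bool => 2 ^ (c * ((unpair y).1.length + 1))) :=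
    poly_pow2 (UPoly.mul (UPoly.const c) (UPoly.add (UPoly.length h1) (UPoly.const 1)))
  have hm : UPoly (fun y : List Bool => min (2 ^ (c * ((unpair y).1.length + 1)))
      (unpair y).2.length) :=
    UPoly.of_le (Poly.min hR (Poly.length h2)) (UPoly.length h2) fun y => min_le_right _ _
  refine polyTime_of_poly_list ?_
  unfold nD
  exact Poly.ite (Poly.decide_lt (Poly.length h2) hR) (NPC.Poly.const [false])
    (hD'.comp (poly_pairBits (poly_pairBits (Pool.Agent.H628R3.RO.p_replicate hm true) h1)
      (poly_dr hR h2)))

theorem nD_pair (D : List Bool → List Bool) (c : ℕ) (x a : List Bool) :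
    nD D c (pairBits x a) = if a.length < 2 ^ (c * (x.length + 1)) then [false] else
      D (pairBits (pairBits (List.replicate (min (2 ^ (c * (x.length + 1))) a.length) true) x)
        (dr (2 ^ (c * (x.length + 1))) a)) := by
  unfold nD
  rw [unpair_pairBits]

theorem inTime_of_isE {A : Oracle} {S : Set (List Bool)} (h : IsE A S) : InTime Lin A S := by
  obtain ⟨c, F, ⟨M, hM⟩, hF⟩ := h
  let N : Alg := ⟨nD M.D c, poly_nD M.poly c, 0⟩
  have hsim : ∀ (x a : List Bool), a.length = 2 ^ (c * (x.length + 1)) → ∀ (n : ℕ)
      (b : List Bool), N.run A x n (a ++ b) =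
        M.run A (pairBits (List.replicate (2 ^ (c * (x.length + 1))) true) x) n b := by
    intro x a ha n
    induction n with
    | zero => intro b; rfl
    | succ n ih =>
      intro b
      have h1 : N.D (pairBits x (a ++ b)) = M.D (pairBits (pairBits
          (List.replicate (2 ^ (c * (x.length + 1))) true) x) b) := by
        change nD M.D c _ = _
        rw [nD_pair, if_neg (by rw [List.length_append]; omega), dr_append ha,
          min_eq_left (by rw [List.length_append]; omega)]
      rw [Alg.run, Alg.run, h1]
      rcases M.D (pairBits (pairBits (List.replicate (2 ^ (c * (x.length + 1))) true) x) b)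
        with _ | ⟨e, q⟩
      · rfl
      · cases e with
        | true => rfl
        | false =>
          dsimp only
          rw [List.append_assoc]
          exact ih _
  have hpre : ∀ (x : List Bool) (m k : ℕ) (a : List Bool),
      k + a.length = 2 ^ (c * (x.length + 1)) → N.run A x (k + m) a =
        M.run A (pairBits (List.replicate (2 ^ (c * (x.length + 1))) true) x) m [] := by
    intro x m k
    induction k with
    | zero =>
      intro a ha
      have h1 := hsim x a (by omega) m []
      rw [List.append_nil] at h1
      rw [Nat.zero_add]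
      exact h1
    | succ k ih =>
      intro a ha
      have h1 : N.D (pairBits x a) = [false] := by
        change nD M.D c _ = _
        rw [nD_pair, if_pos (by omega)]
      have h3 : k + 1 + m = (k + m) + 1 := by ring
      rw [h3, Alg.run, h1]
      exact ih _ (by rw [List.length_append, List.length_singleton]; omega)
  obtain ⟨r, hr, hr2⟩ := good_Lin.comp _ (good_Lin.lin c)
    (Polynomial.X + M.p.comp (Polynomial.C 2 * Polynomial.X + Polynomial.C 1))
  refine ⟨N, r, hr, fun x => ⟨_, Alg.run_mono _ A x _ (2 ^ (c * (x.length + 1)) +
    M.p.eval (pairBits (List.replicate (2 ^ (c * (x.length + 1))) true) x).length) _ [] ?_ ?_,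
    hF x⟩⟩
  · refine le_trans ?_ (hr2 x.length)
    have h00 : (Polynomial.C c * (Polynomial.X + 1)).eval x.length = c * (x.length + 1) := by
      simp
    rw [h00, Polynomial.eval_add, Polynomial.eval_X, Polynomial.eval_comp, length_pairBits,
      List.length_replicate]
    apply Nat.add_le_add (Nat.le_add_left _ _)
    apply eval_mono
    simp only [Polynomial.eval_add, Polynomial.eval_mul, Polynomial.eval_C, Polynomial.eval_X]
    omega
  · rw [hpre x _ _ [] (by simp)]
    exact hM _

end Pool.Agent.W900.IM
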