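import Pool.Agent.W900.IM.Comp
import Pool.Agent.W900.IM.Tm
import Pool.Agent.W900.FS.Main
import Pool.Agent.W900.SP.Left
import Pool.Agent.W900.PM.Fin

/-!
# Sets without null covers are bi-immune
-/

set_option autoImplicit false

namespace Pool.Agent.W900.IM

open Finset Filter Pool.Agent.NPC Pool.Agent.H620R2.Gauge Pool.Agent.H593R3.DST
open Pool.Agent.W911.AL (poly_pow2 IsSigma)
open Pool.Agent.W911.KM
open Pool.Agent.H622R2 (poly_pairBits)
open Pool.Agent.W900.PM (pow_len_le)
open Pool.Agent.W900.IE (poly_u1 poly_u2)
open Pool.Agent.W900.FS (poly_enc)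

attribute [local irreducible] unpair

/-- the letters of `w` at the places in `s` are `b` -/
def okk (s : ℕ → Bool) (b : Bool) (w : List Bool) : Bool :=
  (List.range w.length).all (fun j => !(s j) || (w.getD j false == b))

/-- the number of places -/
def cn (s : ℕ → Bool) (ℓ : ℕ) : ℕ := ((List.range ℓ).filter s).length

/-- the capital -/
def dd (s : ℕ → Bool) (b : Bool) (w : List Bool) : ℕ :=
  if okk s b w = true then 2 ^ cn s w.length else 0

theorem okk_append (s : ℕ → Bool) (b : Bool) (w : List Bool) (e : Bool) :
    okk s b (w ++ [e]) = (okk s b w && (!(s w.length) || (e == b))) := by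
  unfold okk
  rw [List.length_append, List.length_singleton, List.range_succ, List.all_append]
  congr 1
  · rw [Bool.eq_iff_iff, List.all_eq_true, List.all_eq_true]
    refine forall_congr' fun j => forall_congr' fun hj => ?_
    rw [getD_append_lt (List.mem_range.1 hj)]
  · simp only [List.all_cons, List.all_nil, Bool.and_true]
    have h : (w ++ [e]).getD w.length false = e := by
      rw [List.getD_eq_getElem?_getD]
      simp
    rw [h]

theorem cn_succ (s : ℕ → Bool) (ℓ : ℕ) : cn s (ℓ + 1) = cn s ℓ + if s ℓ = true then 1 else 0 := by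
  unfold cn
  rw [List.range_succ, List.filter_append, List.length_append]
  congr 1
  by_cases h : s ℓ = true <;> simp [h]

theorem dd_avg (s : ℕ → Bool) (b : Bool) (w : List Bool) :
    dd s b (w ++ [false]) + dd s b (w ++ [true]) = 2 * dd s b w := by
  unfold dd
  simp only [okk_append, List.length_append, List.length_singleton, cn_succ]
  cases h : s w.length
  · cases hag : okk s b w
    · simp
    · simp
      ring
  · cases hag : okk s b w
    · simp
    · cases b <;> simp [pow_succ] <;> ring

theorem dd_congr {s s' : ℕ → Bool} {b : Bool} {w : List Bool} (h : ∀ j < w.length, s j = s' j) :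
    dd s b w = dd s' b w := by
  have h1 : okk s b w = okk s' b w := by
    unfold okk
    rw [Bool.eq_iff_iff, List.all_eq_true, List.all_eq_true]
    refine forall_congr' fun j => forall_congr' fun hj => ?_
    rw [h j (List.mem_range.1 hj)]
  have h2 : cn s w.length = cn s' w.length := by
    unfold cn
    rw [List.filter_congr fun j hj => h j (List.mem_range.1 hj)]
  unfold dd
  rw [h1, h2]

theorem poly_dd {α : Type} [TEnc α] {w : α → List Bool} {s : α → ℕ → Bool} (hw : Poly w)
    (hs : Poly (fun q : α × ℕ => s q.1 q.2)) (b : Bool) :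
    Poly (fun a => dd (s a) b (w a)) := by
  unfold dd okk cn
  have h1 : Poly (fun a => (List.range (w a).length).all (fun j =>
      !(s a j) || ((w a).getD j false == b))) := by
    refine Poly.all (p := fun (a : α) (j : ℕ) => !(s a j) || ((w a).getD j false == b))
      (UPoly.length hw).range ?_
    have h2 : Poly (fun q : α × ℕ => (w q.1).getD q.2 false) :=
      Poly.getD (hw.comp (Poly.fst Poly.id)) (Poly.snd Poly.id) (NPC.Poly.const false)
    exact Poly.or (Poly.not hs) ((Poly.decide_eq h2 (NPC.Poly.const b)).congr fun q => by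
      cases (w q.1).getD q.2 false <;> cases b <;> rfl)
  refine Poly.ite (Poly.decide_eq h1 (NPC.Poly.const true)) (poly_pow2 (UPoly.length
    (Poly.filter (p := fun (a : α) (j : ℕ) => s a j) (UPoly.length hw).range hs)))
    (NPC.Poly.const 0)

theorem enc_getD (β : List Bool → Bool) : ∀ (xs : List (List Bool)) (j : ℕ) (hj : j < xs.length),
    (enc (xs.map (fun x => [β x]))).getD (3 * j + 1) false = β xs[j] := by
  intro xs
  induction xs with
  | nil => intro j hj; simp at hj
  | cons x xs ih =>
    intro j hj
    have h1 : enc ((x :: xs).map (fun x => [β x])) =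
        true :: β x :: false :: enc (xs.map (fun x => [β x])) := rfl
    rw [h1]
    rcases j with _ | j
    · simp
    · have h2 := ih j (by simpa using hj)
      have h3 : 3 * (j + 1) + 1 = (3 * j + 1) + 1 + 1 + 1 := by ring
      rw [h3, List.getD_cons_succ, List.getD_cons_succ, List.getD_cons_succ, h2]
      simp

/-- the padded string -/
def pe (c W j : ℕ) : List Bool :=
  pairBits (List.replicate (2 ^ (c * ((str (min j W)).length + 1))) true) (str (min j W))

theorem poly_pe {α : Type} [TEnc α] (c : ℕ) {W j : α → ℕ} (hW : UPoly W) (hj : Poly j) :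
    Poly (fun a => pe c (W a) (j a)) := by
  have h1 : Poly (fun a => min (j a) (W a)) := Poly.min hj hW.toPoly
  have h2 : UPoly (fun a => 2 ^ (c * ((str (min (j a) (W a))).length + 1))) := by
    refine UPoly.of_le (poly_pow2 (UPoly.mul (UPoly.const c) (UPoly.add
      (UPoly.length (poly_str h1)) (UPoly.const 1))))
      (UPoly.eval hW ((Polynomial.C 2 * (Polynomial.X + 1)) ^ c)) fun a => ?_
    have h3 := pow_len_le (min (j a) (W a))
    have h4 : min (j a) (W a) ≤ W a := min_le_right _ _
    have h5 : 2 ^ (str (min (j a) (W a))).length ≤ W a + 1 := by omega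
    rw [mul_comm, pow_mul, pow_succ]
    simp only [Polynomial.eval_pow, Polynomial.eval_mul, Polynomial.eval_C, Polynomial.eval_add,
      Polynomial.eval_X, Polynomial.eval_one]
    apply Nat.pow_le_pow_left
    omega
  unfold pe
  exact poly_pairBits (Pool.Agent.H628R3.RO.p_replicate h2 true) (poly_str h1)

/-- The sets which contain (or avoid) an infinite set in `E`, up to finitely many exceptions, are
null. -/
theorem null_of_isE {O : Oracle} {S : Set (List Bool)} (hS : S.Infinite) (hE : IsE O S)
    (b : Bool) (m : ℕ) : NullP O {L | ∀ j ≥ m, str j ∈ S → (str j ∈ L ↔ b = true)} := by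
  classical
  obtain ⟨c, F, hF, hFS⟩ := hE
  set s : ℕ → Bool := fun j => decide (m ≤ j) && decide (str j ∈ S) with hs
  -- the count is unbounded
  have hinf : ∀ k, ∃ ℓ, k ≤ cn s ℓ := by
    intro k
    have h1 : {j | s j = true}.Infinite := by
      intro hfin
      apply hS
      have h2 : S ⊆ ((({j | s j = true} ∪ {j | j < m}).image str : Set (List Bool))) := by
        intro x hx
        refine ⟨idx x, ?_, str_idx x⟩
        by_cases hm : idx x < m
        · exact Or.inr hm
        · left
          have h3 : s (idx x) = (decide (m ≤ idx x) && decide (x ∈ S)) := by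
            rw [hs]
            dsimp only
            rw [str_idx]
          rw [Set.mem_ofPred_eq, h3]
          simp only [hx, decide_true, Bool.and_true, decide_eq_true_eq]
          omega
      exact ((hfin.union (Set.finite_lt_nat m)).image str).subset h2
    obtain ⟨T, hT, hTk⟩ := Set.Infinite.exists_subset_card_eq h1 k
    refine ⟨T.sup id + 1, ?_⟩
    rw [← hTk]
    unfold cn
    have h3 : T ⊆ ((List.range (T.sup id + 1)).filter s).toFinset := by
      intro j hj
      rw [List.mem_toFinset, List.mem_filter, List.mem_range]
      exact ⟨Nat.lt_succ_of_le (Finset.le_sup (f := id) hj), hT hj⟩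
    exact (Finset.card_le_card h3).trans (List.toFinset_card_le _)
  -- the computation
  have hw : Poly (fun z : List Bool => (unpair (unpair z).2).2) := poly_u2.comp poly_u2
  have hW : UPoly (fun z : List Bool => (unpair (unpair z).2).2.length) := UPoly.length hw
  have hf : IsFP O (fun q => [decide (F q = [true])]) := by
    have h1 : Poly (fun q : List Bool => [decide (q = [true])]) :=
      Poly.cons (Poly.decide_eq Poly.id (NPC.Poly.const [true])) (NPC.Poly.const [])
    exact IsFP.comp (IsFP.of_poly (A := O) h1) hF
  obtain ⟨G, hG, hGe⟩ := exists_map hf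
  have hY : Poly (fun z : List Bool => enc ((List.range (unpair (unpair z).2).2.length).map
      (fun j => pe c (unpair (unpair z).2).2.length j))) := by
    refine poly_enc (NPC.Poly.map (F := fun (z : List Bool) (j : ℕ) =>
      pe c (unpair (unpair z).2).2.length j) hW.range ?_)
    exact poly_pe c (hW.comp (Poly.fst Poly.id)) (Poly.snd Poly.id)
  have hGY := hG.precomp hY
  have h2 := IsFP.pair (IsFP.of_poly (A := O) Poly.id) hGY
  have h3 : Poly (fun y : List Bool => pairBits (Nat.bits (dd (fun j => decide (m ≤ j) &&
      (unpair y).2.getD (3 * j + 1) false) b (unpair (unpair (unpair y).1).2).2))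
      (pairBits [] (List.replicate (unpair (unpair y).1).1.length true))) := by
    have h4 : Poly (fun q : List Bool × ℕ => decide (m ≤ q.2) &&
        (unpair q.1).2.getD (3 * q.2 + 1) false) :=
      Poly.and (Poly.decide_le (NPC.Poly.const m) (Poly.snd Poly.id))
        (Poly.getD (poly_u2.comp (Poly.fst Poly.id))
          (Poly.add (Poly.mul (NPC.Poly.const 3) (Poly.snd Poly.id)) (NPC.Poly.const 1))
          (NPC.Poly.const false))
    exact poly_pairBits (Poly.natBits (poly_dd (s := fun (y : List Bool) (j : ℕ) =>
      decide (m ≤ j) && (unpair y).2.getD (3 * j + 1) false) (hw.comp poly_u1) h4 b))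
      (poly_pairBits (NPC.Poly.const []) (Pool.Agent.H628R3.RO.p_replicate
        (UPoly.length (poly_u1.comp poly_u1)) true))
  have h4 := IsFP.comp (IsFP.of_poly (A := O) h3) h2
  refine ⟨fun k w => (dd s b w : ℝ) / 2 ^ k, ⟨fun k w => by positivity, fun k w => ?_,
    fun k => ?_, fun k L hL => ?_⟩, _, h4, fun k r w => ?_⟩
  · have h5 : ((dd s b (w ++ [false]) : ℝ) + dd s b (w ++ [true])) = 2 * dd s b w := by
      exact_mod_cast dd_avg s b w
    have h6 : ((dd s b (w ++ [false]) : ℝ) / 2 ^ k + dd s b (w ++ [true]) / 2 ^ k) / 2 =
        (((dd s b (w ++ [false]) : ℝ) + dd s b (w ++ [true])) / 2) / 2 ^ k := by ring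
    rw [h6, h5]
    apply le_of_eq
    ring
  · have h5 : dd s b [] = 1 := by
      unfold dd okk cn
      simp
    beta_reduce
    rw [h5, Nat.cast_one]
  · obtain ⟨ℓ, hℓ⟩ := hinf k
    refine ⟨ℓ, ?_⟩
    have h5 : okk s b (prefL L ℓ) = true := by
      unfold okk
      rw [List.all_eq_true]
      intro j hj
      rw [List.mem_range, length_prefL] at hj
      by_cases hsj : s j = true
      · have h6 : m ≤ j ∧ str j ∈ S := by
          rw [hs] at hsj
          simpa using hsj
        have h7 := hL j h6.1 h6.2
        have h8 : (prefL L ℓ).getD j false = decide (str j ∈ L) := by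
          rw [prefL, List.getD_eq_getElem?_getD]
          simp [hj]
        rw [h8]
        cases b
        · have h9 : str j ∉ L := fun h => absurd (h7.1 h) (by simp)
          simp [h9]
        · have h9 : str j ∈ L := h7.2 rfl
          simp [h9]
      · simp [hsj]
    have h6 : dd s b (prefL L ℓ) = 2 ^ cn s ℓ := by
      unfold dd
      rw [if_pos h5, length_prefL]
    beta_reduce
    rw [h6, le_div_iff₀ (by positivity), one_mul, Nat.cast_pow, Nat.cast_ofNat]
    exact pow_le_pow_right₀ (by norm_num) hℓ
  · have e1 : (unpair (W911.KM.inp k r w)).1.length = k := by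
      unfold W911.KM.inp
      rw [unpair_pairBits, List.length_replicate]
    have e2 : (unpair (unpair (W911.KM.inp k r w)).2).2 = w := by
      unfold W911.KM.inp
      rw [unpair_pairBits, unpair_pairBits]
    simp only [unpair_pairBits, e1, e2]
    have e3 : dd (fun j => decide (m ≤ j) && (G (enc ((List.range w.length).map
        (fun j => pe c w.length j)))).getD (3 * j + 1) false) b w = dd s b w := by
      apply dd_congr
      intro j hj
      rw [hGe]
      have h5 := enc_getD (fun q => decide (F q = [true]))
        ((List.range w.length).map (fun j => pe c w.length j)) j (by simpa using hj)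
      rw [h5]
      simp only [List.getElem_map, List.getElem_range]
      rw [hs]
      congr 1
      rw [decide_eq_decide]
      unfold pe
      rw [min_eq_left hj.le]
      exact (hFS (str j)).symm
    rw [e3]
    have e4 : dy (pairBits (Nat.bits (dd s b w)) (pairBits [] (List.replicate k true))) =
        (dd s b w : ℝ) / 2 ^ k := by
      unfold dy
      simp only [unpair_pairBits, valB_bits, valB_nil, List.length_replicate]
      rw [Nat.cast_zero, sub_zero]
    rw [e4, sub_self, abs_zero]
    positivity

/-- A language which is in no null class splits all infinite sets in `E`. -/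
theorem split_of_not_null {O : Oracle} {L : Set (List Bool)}
    (hL : ∀ X : Set (Set (List Bool)), L ∈ X → ¬ NullP O X) {S : Set (List Bool)}
    (hS : S.Infinite) (hE : IsE O S) : (S ∩ L).Infinite ∧ (S \ L).Infinite := by
  constructor
  · intro hfin
    obtain ⟨m, hm⟩ : ∃ m, ∀ x ∈ S ∩ L, idx x < m :=
      ⟨hfin.toFinset.sup idx + 1, fun x hx => Nat.lt_succ_of_le
        (Finset.le_sup (f := idx) (hfin.mem_toFinset.2 hx))⟩
    refine hL _ ?_ (null_of_isE hS hE false m)
    intro j hj hjS
    refine ⟨fun h => ?_, fun h => by simp at h⟩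
    have := hm (str j) ⟨hjS, h⟩
    rw [idx_str] at this
    omega
  · intro hfin
    obtain ⟨m, hm⟩ : ∃ m, ∀ x ∈ S \ L, idx x < m :=
      ⟨hfin.toFinset.sup idx + 1, fun x hx => Nat.lt_succ_of_le
        (Finset.le_sup (f := idx) (hfin.mem_toFinset.2 hx))⟩
    refine hL _ ?_ (null_of_isE hS hE true m)
    intro j hj hjS
    refine ⟨fun _ => rfl, fun _ => ?_⟩
    by_contra h
    have := hm (str j) ⟨hjS, h⟩
    rw [idx_str] at this
    omega

end Pool.Agent.W900.IM
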