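import Pool.Agent.W900.IM.Orc
import Pool.Agent.W911.KM.InE

/-!
# The messages can be read in exponential time
-/

set_option autoImplicit false

namespace Pool.Agent.W900.IM

open Filter Pool.Agent.NPC Pool.Agent.H620R2.Gauge
open Pool.Agent.W911.AL (poly_pow2)
open Pool.Agent.W911.KM (IsE)
open Pool.Agent.W900.RB (reg)
open Pool.Agent.W900.PM (poly_str)

attribute [local irreducible] unpair

/-- the strings that are announced by the blocks of the machine number `i` -/
def SS (u : ℕ → Option (SAlg × ℕ)) (A : Oracle) (i n₀ : ℕ) : Set (List Bool) :=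
  {x | n₀ ≤ x.length ∧ (∀ j < 2 * x.length, syn u A i x.length j = false) ∧
    ∀ j < x.length, syn u A i x.length (2 * x.length + j) = x.getD j false}

theorem poly_reg {α : Type} [TEnc α] {m : α → ℕ} {w : α → List Bool} (hm : UPoly m)
    (hw : Poly w) : Poly (fun a => reg (m a) (w a)) := by
  unfold reg
  exact Poly.append (Pool.Agent.H628R3.RO.p_replicate hm true)
    (Poly.cons (NPC.Poly.const false) hw)

theorem poly_par {α : Type} [TEnc α] {N j : α → ℕ} {ans : α → List Bool} (hN : UPoly N)
    (ha : Poly ans) (hj : Poly j) :
    Poly (fun a => PM.par (N a) (fun p => (ans a).getD p false && (str p).getD (j a) false)) := by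
  unfold PM.par
  have h3 : Poly (fun a => (List.range (N a)).filter
      (fun p => (ans a).getD p false && (str p).getD (j a) false)) := by
    apply Poly.filter (p := fun (a : α) (p : ℕ) => (ans a).getD p false &&
      (str p).getD (j a) false) hN.range
    apply Poly.and
    · exact Poly.getD (ha.comp (Poly.fst Poly.id)) (Poly.snd Poly.id) (NPC.Poly.const false)
    · exact Poly.getD (poly_str (Poly.snd Poly.id)) (hj.comp (Poly.fst Poly.id))
        (NPC.Poly.const false)
  exact Poly.decide_eq (Poly.mod (Poly.length h3) (NPC.Poly.const 2)) (NPC.Poly.const 1)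

theorem isE_SS (u : ℕ → Option (SAlg × ℕ)) (A : Oracle) (i n₀ : ℕ) : IsE A (SS u A i n₀) := by
  set E := ex u i with hE
  have hm : UPoly (fun y : List Bool => (unpair y).1.length) := UPoly.length (Poly.fst poly_unpair)
  have hx : Poly (fun y : List Bool => (unpair y).2) := Poly.snd poly_unpair
  have hn : UPoly (fun y : List Bool => (unpair y).2.length) := UPoly.length hx
  have hN : UPoly (fun y : List Bool =>
      min (2 ^ (3 * (unpair y).2.length + 1)) (unpair y).1.length) :=
    UPoly.of_le (Poly.min (poly_pow2 (UPoly.add (UPoly.mul (UPoly.const 3) hn) (UPoly.const 1)))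
      hm.toPoly) hm fun y => min_le_right _ _
  have hR : UPoly (fun y : List Bool =>
      min (2 ^ (E * ((unpair y).2.length + 1))) (unpair y).1.length) :=
    UPoly.of_le (Poly.min (poly_pow2 (UPoly.mul (UPoly.const E)
      (UPoly.add hn (UPoly.const 1)))) hm.toPoly) hm fun y => min_le_right _ _
  have hQ : Poly (fun y : List Bool =>
      (List.range (min (2 ^ (3 * (unpair y).2.length + 1)) (unpair y).1.length)).map
      (fun p => reg (min (2 ^ (E * ((unpair y).2.length + 1))) (unpair y).1.length)
        (reg i (str p)))) := by
    refine NPC.Poly.map (F := fun (y : List Bool) (p : ℕ) =>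
      reg (min (2 ^ (E * ((unpair y).2.length + 1))) (unpair y).1.length)
        (reg i (str p))) hN.range ?_
    exact poly_reg (hR.comp (Poly.fst Poly.id))
      (poly_reg (UPoly.const i) (poly_str (Poly.snd Poly.id)))
  have hH : Poly (fun q : List Bool × List Bool =>
      [(decide (n₀ ≤ (unpair q.1).2.length) &&
        (List.range (2 * (unpair q.1).2.length)).all (fun j =>
          !(PM.par (min (2 ^ (3 * (unpair q.1).2.length + 1)) (unpair q.1).1.length)
            (fun p => q.2.getD p false && (str p).getD j false)))) &&
        (List.range (unpair q.1).2.length).all (fun j =>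
          decide (PM.par (min (2 ^ (3 * (unpair q.1).2.length + 1)) (unpair q.1).1.length)
            (fun p => q.2.getD p false && (str p).getD (2 * (unpair q.1).2.length + j) false) =
              (unpair q.1).2.getD j false))]) := by
    have hn1 : UPoly (fun q : List Bool × List Bool => (unpair q.1).2.length) :=
      hn.comp (Poly.fst Poly.id)
    refine Poly.cons (Poly.and (Poly.and (Poly.decide_le (NPC.Poly.const n₀) hn1.toPoly) ?_) ?_)
      (NPC.Poly.const [])
    · refine Poly.all (p := fun (q : List Bool × List Bool) (j : ℕ) =>
        !(PM.par (min (2 ^ (3 * (unpair q.1).2.length + 1)) (unpair q.1).1.length)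
            (fun p => q.2.getD p false && (str p).getD j false)))
        (UPoly.mul (UPoly.const 2) hn1).range ?_
      exact Poly.not (poly_par (hN.comp (Poly.fst (Poly.fst Poly.id)))
        (Poly.snd (Poly.fst Poly.id)) (Poly.snd Poly.id))
    · refine Poly.all (p := fun (q : List Bool × List Bool) (j : ℕ) =>
        decide (PM.par (min (2 ^ (3 * (unpair q.1).2.length + 1)) (unpair q.1).1.length)
            (fun p => q.2.getD p false && (str p).getD (2 * (unpair q.1).2.length + j) false) =
              (unpair q.1).2.getD j false)) hn1.range ?_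
      have hn2 : Poly (fun q : (List Bool × List Bool) × ℕ =>
          2 * (unpair q.1.1).2.length + q.2) :=
        Poly.add (Poly.mul (NPC.Poly.const 2) (hn1.toPoly.comp (Poly.fst Poly.id)))
          (Poly.snd Poly.id)
      exact Poly.decide_eq (poly_par (hN.comp (Poly.fst (Poly.fst Poly.id)))
        (Poly.snd (Poly.fst Poly.id)) hn2)
        (Poly.getD (hx.comp (Poly.fst (Poly.fst Poly.id))) (Poly.snd Poly.id)
          (NPC.Poly.const false))
  refine ⟨E + 3, _, IsFP.tt (A := A) hQ hH, fun x => ?_⟩
  simp only [unpair_pairBits, List.length_replicate]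
  have hE1 : 1 ≤ E := by rw [hE]; unfold ex; omega
  have e1 : min (2 ^ (3 * x.length + 1)) (2 ^ ((E + 3) * (x.length + 1))) =
      2 ^ (3 * x.length + 1) := by
    apply min_eq_left
    apply Nat.pow_le_pow_right (by norm_num)
    nlinarith
  have e2 : min (2 ^ (E * (x.length + 1))) (2 ^ ((E + 3) * (x.length + 1))) =
      lb u i x.length := by
    rw [min_eq_left]
    · rfl
    · apply Nat.pow_le_pow_right (by norm_num)
      nlinarith
  rw [e1, e2]
  have e3 : ∀ j, PM.par (2 ^ (3 * x.length + 1)) (fun p =>
      (((List.range (2 ^ (3 * x.length + 1))).map (fun p =>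
        reg (lb u i x.length) (reg i (str p)))).map A).getD p false && (str p).getD j false) =
      syn u A i x.length j := by
    intro j
    unfold syn
    apply PM.par_congr
    intro p hp
    congr 1
    rw [List.map_map, List.getD_eq_getElem?_getD, List.getElem?_map, List.getElem?_range hp]
    rfl
  simp only [e3]
  unfold SS
  simp only [Set.mem_ofPred_eq, List.cons.injEq, and_true, Bool.and_eq_true, decide_eq_true_eq,
    List.all_eq_true, List.mem_range, Bool.not_eq_true', and_assoc]

end Pool.Agent.W900.IM
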