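import Pool.Agent.W900.PE.Fin

/-!
# Few changes that reveal elements of all infinite sets in `ESPACE`
-/

set_option autoImplicit false

namespace Pool.Agent.W900.IM

open Filter Pool.Agent.NPC Pool.Agent.H620R2.Gauge
open Pool.Agent.W900.BC (Loc Psi Psi_eq)
open Pool.Agent.W900.RB (reg reg_inj length_reg)
open Pool.Agent.W900.CH (Close finite_diff)
open Pool.Agent.W900.PM (par_flip)

/-- the exponents -/
def ex (u : ℕ → Option (SAlg × ℕ)) (i : ℕ) : ℕ := ((u i).map (fun q => q.2)).getD 0 + 1

/-- the length of the block -/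
def lb (u : ℕ → Option (SAlg × ℕ)) (i n : ℕ) : ℕ := 2 ^ (ex u i * (n + 1))

theorem lb_mono (u : ℕ → Option (SAlg × ℕ)) (i : ℕ) {n n' : ℕ} (h : n ≤ n') :
    lb u i n ≤ lb u i n' :=
  Nat.pow_le_pow_right (by norm_num) (Nat.mul_le_mul_left _ (by omega))

theorem lt_lb (u : ℕ → Option (SAlg × ℕ)) (i n : ℕ) : n < lb u i n := by
  have h1 : n + 1 ≤ ex u i * (n + 1) := Nat.le_mul_of_pos_left _ (by unfold ex; omega)
  have h2 : ex u i * (n + 1) < 2 ^ (ex u i * (n + 1)) := Nat.lt_two_pow_self
  unfold lb
  omega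

/-- the string number `p` of the block `(i, n)` -/
def pos (u : ℕ → Option (SAlg × ℕ)) (i n p : ℕ) : List Bool :=
  reg (lb u i n) (reg i (str p))

theorem pos_inj {u : ℕ → Option (SAlg × ℕ)} {i n p i' n' p' : ℕ}
    (h : pos u i n p = pos u i' n' p') : i = i' ∧ n = n' ∧ p = p' := by
  obtain ⟨h1, h2⟩ := reg_inj h
  obtain ⟨h3, h4⟩ := reg_inj h2
  subst h3
  refine ⟨rfl, ?_, str_injective h4⟩
  have h5 := Nat.pow_right_injective (le_refl 2) h1
  have h6 : 0 < ex u i := by unfold ex; omega
  have h7 := Nat.eq_of_mul_eq_mul_left h6 h5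
  omega

theorem pos_len (u : ℕ → Option (SAlg × ℕ)) (i n p : ℕ) : lb u i n < (pos u i n p).length := by
  unfold pos
  rw [length_reg]
  omega

/-- the digit number `j` of the sum of the indices of the ones of the block -/
def syn (u : ℕ → Option (SAlg × ℕ)) (A : Oracle) (i n j : ℕ) : Bool :=
  PM.par (2 ^ (3 * n + 1)) (fun p => A (pos u i n p) && (str p).getD j false)

/-- acceptance -/
def ac (u : ℕ → Option (SAlg × ℕ)) (A : Oracle) (i n : ℕ) (x : List Bool) : Prop :=
  ∃ (M : SAlg) (c : ℕ), u i = some (M, c) ∧ CC.Acc M (CC.cut (2 ^ (c * (n + 1))) A) x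

theorem ac_congr {u : ℕ → Option (SAlg × ℕ)} {A A' : Oracle} {i n : ℕ}
    (h : ∀ z : List Bool, z.length ≤ lb u i n → A z = A' z) : ac u A i n = ac u A' i n := by
  funext x
  unfold ac
  refine propext (exists_congr fun M => exists_congr fun c => and_congr_right fun hu => ?_)
  have h1 : CC.cut (2 ^ (c * (n + 1))) A = CC.cut (2 ^ (c * (n + 1))) A' := by
    apply PM.cut_congr
    intro z hz
    apply h
    refine hz.trans ?_
    unfold lb ex
    rw [hu]
    apply Nat.pow_le_pow_right (by norm_num)
    exact Nat.mul_le_mul_right _ (by simp)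
  rw [h1]

/-- there is an element of length `n` -/
def el (u : ℕ → Option (SAlg × ℕ)) (A : Oracle) (i n : ℕ) : Prop :=
  ∃ x : List Bool, x.length = n ∧ ac u A i n x

/-- the unit number `t` of the machine `i` is available and useful at `n` -/
def av (u : ℕ → Option (SAlg × ℕ)) (G : ℕ → ℕ) (A : Oracle) (i t n : ℕ) : Prop :=
  Nat.pair i t < G (lb u i n) ∧ el u A i n

/-- the block `(i, n)` is used -/
def used (u : ℕ → Option (SAlg × ℕ)) (G : ℕ → ℕ) (A : Oracle) (i n : ℕ) : Prop :=
  ∃ t, av u G A i t n ∧ ∀ n' < n, ¬ av u G A i t n'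

open Classical in
/-- an element of length `n` -/
noncomputable def chs (n : ℕ) (P : List Bool → Prop) : List Bool :=
  if h : ∃ x : List Bool, x.length = n ∧ P x then h.choose else []

/-- the digits of the message -/
noncomputable def ms (u : ℕ → Option (SAlg × ℕ)) (A : Oracle) (i n j : ℕ) : Bool :=
  (List.replicate (2 * n) false ++ chs n (ac u A i n)).getD j false

/-- the index of the string which is changed -/
noncomputable def pst (u : ℕ → Option (SAlg × ℕ)) (O A : Oracle) (i n : ℕ) : ℕ :=
  idx (List.ofFn (fun j : Fin (3 * n) => xor (syn u O i n j) (ms u A i n j)))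

theorem pst_lt (u : ℕ → Option (SAlg × ℕ)) (O A : Oracle) (i n : ℕ) :
    pst u O A i n < 2 ^ (3 * n + 1) := by
  have h := idx_lt (List.ofFn (fun j : Fin (3 * n) => xor (syn u O i n j) (ms u A i n j)))
  rw [List.length_ofFn] at h
  unfold pst
  omega

theorem used_congr {u : ℕ → Option (SAlg × ℕ)} {G : ℕ → ℕ} {A A' : Oracle} {i n : ℕ}
    (h : ∀ z : List Bool, z.length ≤ lb u i n → A z = A' z) :
    used u G A i n ↔ used u G A' i n := by
  have h1 : ∀ t, ∀ n' ≤ n, (av u G A i t n' ↔ av u G A' i t n') := by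
    intro t n' hn
    unfold av el
    rw [ac_congr fun z hz => h z (hz.trans (lb_mono u i hn))]
  unfold used
  refine exists_congr fun t => and_congr (h1 t n le_rfl) ?_
  exact forall_congr' fun n' => forall_congr' fun hn => not_congr (h1 t n' (Nat.le_of_lt hn))

theorem pst_congr {u : ℕ → Option (SAlg × ℕ)} {O A A' : Oracle} {i n : ℕ}
    (h : ∀ z : List Bool, z.length ≤ lb u i n → A z = A' z) : pst u O A i n = pst u O A' i n := by
  unfold pst ms
  rw [ac_congr h]

open Classical in
/-- **The oracle.** -/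
theorem exists_orc (u : ℕ → Option (SAlg × ℕ)) (G : ℕ → ℕ) (O : Oracle) :
    ∃ A : Oracle, (∀ z, A z = if ∃ i n, used u G A i n ∧ z = pos u i n (pst u O A i n) then
      !(O z) else O z) ∧ (∀ i n, used u G A i n → ∀ j < 3 * n, syn u A i n j = ms u A i n j) ∧
      ∀ i n, ¬ used u G A i n → ∀ j, syn u A i n j = syn u O i n j := by
  set adv : List Bool → Oracle → Bool := fun z A =>
    if ∃ i n, used u G A i n ∧ z = pos u i n (pst u O A i n) then !(O z) else O z with hadv
  have hloc : Loc adv := by
    intro z A A' h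
    have h1 : ∀ B B' : Oracle, (∀ z' : List Bool, z'.length < z.length → B z' = B' z') →
        (∃ i n, used u G B i n ∧ z = pos u i n (pst u O B i n)) →
        ∃ i n, used u G B' i n ∧ z = pos u i n (pst u O B' i n) := by
      rintro B B' hB ⟨i, n, hn, hz⟩
      have h2 : ∀ z' : List Bool, z'.length ≤ lb u i n → B z' = B' z' := by
        intro z' hz'
        apply hB
        rw [hz]
        exact lt_of_le_of_lt hz' (pos_len _ _ _ _)
      refine ⟨i, n, (used_congr h2).1 hn, ?_⟩
      rw [← pst_congr h2]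
      exact hz
    have h2 : (∃ i n, used u G A i n ∧ z = pos u i n (pst u O A i n)) ↔
        ∃ i n, used u G A' i n ∧ z = pos u i n (pst u O A' i n) :=
      ⟨h1 A A' h, h1 A' A fun z' hz' => (h z' hz').symm⟩
    rw [hadv]
    dsimp only
    simp only [h2]
  have hA : ∀ z, Psi adv (fun _ => (true, false)) z =
      if ∃ i n, used u G (Psi adv (fun _ => (true, false))) i n ∧
        z = pos u i n (pst u O (Psi adv (fun _ => (true, false))) i n) then
        !(O z) else O z := by
    intro z
    rw [Psi_eq hloc]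
    rfl
  refine ⟨_, hA, fun i n hn j hj => ?_, fun i n hn j => ?_⟩
  · set A := Psi adv (fun _ => (true, false)) with hAd
    have h1 : syn u A i n j = xor (syn u O i n j) ((str (pst u O A i n)).getD j false) := by
      unfold syn
      apply par_flip (pst_lt u O A i n)
      · intro p _ hp
        rw [hA, if_neg]
        rintro ⟨i', n', _, h2⟩
        obtain ⟨h3, h4, h5⟩ := pos_inj h2
        subst h3
        subst h4
        exact hp h5
      · rw [hA, if_pos ⟨i, n, hn, rfl⟩]
        cases O (pos u i n (pst u O A i n)) <;> cases (str (pst u O A i n)).getD j false <;> rfl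
    rw [h1]
    have h2 : (str (pst u O A i n)).getD j false = xor (syn u O i n j) (ms u A i n j) := by
      unfold pst
      rw [str_idx, List.getD_eq_getElem _ _ (by rw [List.length_ofFn]; exact hj),
        List.getElem_ofFn]
    rw [h2]
    cases syn u O i n j <;> cases ms u A i n j <;> rfl
  · unfold syn
    apply PM.par_congr
    intro p _
    rw [hA, if_neg]
    rintro ⟨i', n', h1, h2⟩
    obtain ⟨h3, h4, h5⟩ := pos_inj h2
    subst h3
    subst h4
    exact hn h1

/-- the number of changes -/
theorem dist_orc {u : ℕ → Option (SAlg × ℕ)} {G : ℕ → ℕ} (hG : Monotone G) {O A : Oracle}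
    (hA : ∀ z, (¬ ∃ i n, used u G A i n ∧ z = pos u i n (pst u O A i n)) → A z = O z) (N : ℕ) :
    CH.dist O A N ≤ G N := by
  classical
  set nl : ℕ → ℕ := fun k => if h : ∃ n, av u G A (Nat.unpair k).1 (Nat.unpair k).2 n then
    Nat.find h else 0 with hnl
  have h1 : {x : List Bool | x.length ≤ N ∧ A x ≠ O x} ⊆
      ((Finset.range (G N)).image (fun k => pos u (Nat.unpair k).1 (nl k)
        (pst u O A (Nat.unpair k).1 (nl k))) : Set (List Bool)) := by
    rintro z ⟨h2, h3⟩
    have h4 : ∃ i n, used u G A i n ∧ z = pos u i n (pst u O A i n) := by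
      by_contra hc
      exact h3 (hA z hc)
    obtain ⟨i, n, ⟨t, ht1, ht2⟩, rfl⟩ := h4
    rw [Finset.mem_coe, Finset.mem_image]
    have h5 : nl (Nat.pair i t) = n := by
      have hex : ∃ n, av u G A (Nat.unpair (Nat.pair i t)).1 (Nat.unpair (Nat.pair i t)).2 n := by
        rw [Nat.unpair_pair]
        exact ⟨n, ht1⟩
      rw [hnl]
      dsimp only
      rw [dif_pos hex]
      apply le_antisymm
      · apply Nat.find_min'
        rw [Nat.unpair_pair]
        exact ht1
      · by_contra hc
        push Not at hc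
        have h6 := Nat.find_spec hex
        have h7 := ht2 _ hc
        have h8 : ∀ m, av u G A (Nat.unpair (Nat.pair i t)).1 (Nat.unpair (Nat.pair i t)).2 m →
            av u G A i t m := fun m hm => by rwa [Nat.unpair_pair] at hm
        exact h7 (h8 _ h6)
    refine ⟨Nat.pair i t, ?_, ?_⟩
    · rw [Finset.mem_range]
      have h6 := pos_len u i n (pst u O A i n)
      exact lt_of_lt_of_le ht1.1 (hG (by omega))
    · rw [h5, Nat.unpair_pair]
  unfold CH.dist
  calc _ ≤ ((Finset.range (G N)).image (fun k => pos u (Nat.unpair k).1 (nl k)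
        (pst u O A (Nat.unpair k).1 (nl k))) : Set (List Bool)).ncard := by
        exact Set.ncard_le_ncard h1 (Finset.finite_toSet _)
    _ ≤ G N := by
        rw [Set.ncard_coe_finset]
        refine Finset.card_image_le.trans ?_
        rw [Finset.card_range]

/-- the blocks of a machine with infinitely many elements are used infinitely often -/
theorem used_inf {u : ℕ → Option (SAlg × ℕ)} {G : ℕ → ℕ} (hG : Tendsto G atTop atTop)
    {A : Oracle} {i : ℕ} (h : ∀ N, ∃ n ≥ N, el u A i n) : ∀ N, ∃ n ≥ N, used u G A i n := by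
  classical
  intro N
  -- a unit which is not available before `N`
  obtain ⟨t, ht⟩ : ∃ t, ∀ n ≤ N, G (lb u i n) ≤ Nat.pair i t := by
    obtain ⟨K, hK⟩ : ∃ K, ∀ n ≤ N, G (lb u i n) ≤ K :=
      ⟨(Finset.range (N + 1)).sup (fun n => G (lb u i n)), fun n hn =>
        Finset.le_sup (f := fun n => G (lb u i n)) (Finset.mem_range.2 (by omega))⟩
    exact ⟨K, fun n hn => (hK n hn).trans (Nat.right_le_pair _ _)⟩
  obtain ⟨m, hm⟩ := eventually_atTop.1 (hG.eventually_gt_atTop (Nat.pair i t))
  obtain ⟨n₁, hn₁, hel⟩ := h m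
  have hex : ∃ n, av u G A i t n :=
    ⟨n₁, hm _ (hn₁.trans (lt_lb u i n₁).le), hel⟩
  refine ⟨Nat.find hex, ?_, t, Nat.find_spec hex, fun n' hn' => Nat.find_min hex hn'⟩
  by_contra hc
  push Not at hc
  have h1 := (Nat.find_spec hex).1
  have h2 := ht (Nat.find hex) hc.le
  omega

end Pool.Agent.W900.IM
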